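import Mathlib

/-!
# A Cohen-Macaulay complex whose barycentric subdivision never has the weak Lefschetz property

The complex `Gam` is the 2-skeleton of the simplex on the vertices 0,1,2,3,4 together with one
more triangle {0,1,5} glued along the edge {0,1}.
-/

open MvPolynomial RingTheory.Sequence

universe u

namespace Pool.Agent.Results.MP_28b0d6_al.SubdivisionFailsWLP

section Definitions

/-- The barycentric subdivision of a simplicial complex `Γ` (Mathlib's abstract simplicial
complexes consist of nonempty faces): its vertices are the nonempty faces of `Γ`, and its faces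
are the nonempty finite chains of faces of `Γ` under inclusion. -/
def sd {V : Type*} (Γ : AbstractSimplicialComplex V) : AbstractSimplicialComplex Γ.faces where
  faces := {s | s.Nonempty ∧ ∀ a ∈ s, ∀ b ∈ s, (a : Finset V) ⊆ b ∨ (b : Finset V) ⊆ a}
  isRelLowerSet_faces := by
    rintro s ⟨hs, hc⟩
    refine ⟨hs, fun t hts ht => ⟨ht, fun a ha b hb => hc a (hts ha) b (hts hb)⟩⟩
  singleton_mem := by
    intro v
    refine ⟨Finset.singleton_nonempty v, ?_⟩
    intro a ha b hb
    rw [Finset.mem_singleton] at ha hb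
    subst ha; subst hb
    exact Or.inl (Finset.Subset.refl _)

/-- The simplicial complex `Δ` has dimension `d - 1`: all faces have at most `d` vertices and
some face has exactly `d` vertices. -/
def HasDimSucc {σ : Type*} (Δ : AbstractSimplicialComplex σ) (d : ℕ) : Prop :=
  (∀ s ∈ Δ.faces, s.card ≤ d) ∧ ∃ s ∈ Δ.faces, s.card = d

/-- The Stanley-Reisner ideal of `Δ` in the polynomial ring on the vertices of `Δ`: it is
generated by the squarefree monomials of the (nonempty) non-faces. -/
noncomputable def srIdeal (K : Type*) [Field K] {σ : Type*} (Δ : AbstractSimplicialComplex σ) :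
    Ideal (MvPolynomial σ K) :=
  Ideal.span {m | ∃ s : Finset σ, s.Nonempty ∧ s ∉ Δ.faces ∧ m = ∏ v ∈ s, X v}

/-- `Θ` is a linear system of parameters of length `d`: the `Θ i` are linear forms and the
quotient of the polynomial ring by the Stanley-Reisner ideal and by `Θ` is finite dimensional. -/
structure IsLSOP (K : Type*) [Field K] {σ : Type*} (Δ : AbstractSimplicialComplex σ) {d : ℕ}
    (Θ : Fin d → MvPolynomial σ K) : Prop where
  linear : ∀ i, (Θ i).IsHomogeneous 1
  finite : FiniteDimensional K (MvPolynomial σ K ⧸ (srIdeal K Δ ⊔ Ideal.span (Set.range Θ)))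

/-- The Stanley-Reisner ring of the complex `Δ` of dimension `d - 1` is Cohen-Macaulay: it has a
linear system of parameters of length `d`, and each of them is a regular sequence on it. -/
def IsCohenMacaulay (K : Type*) [Field K] {σ : Type*} (Δ : AbstractSimplicialComplex σ)
    (d : ℕ) : Prop :=
  HasDimSucc Δ d ∧ (∃ Θ : Fin d → MvPolynomial σ K, IsLSOP K Δ Θ) ∧
    ∀ Θ : Fin d → MvPolynomial σ K, IsLSOP K Δ Θ →
      IsRegular (MvPolynomial σ K ⧸ srIdeal K Δ) (List.ofFn Θ)

/-- The degree `i` part of the quotient of the polynomial ring by the ideal `I`. -/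
noncomputable def gradedPiece {σ : Type*} {K : Type*} [Field K]
    (I : Ideal (MvPolynomial σ K)) (i : ℕ) : Submodule K (MvPolynomial σ K ⧸ I) :=
  (homogeneousSubmodule σ K i).map (Ideal.Quotient.mkₐ K I).toLinearMap

/-- Weak Lefschetz property of the quotient of the polynomial ring by `I`: for some linear form
`ℓ`, each multiplication map by `ℓ` from degree `i` to degree `i + 1` is injective or
surjective. -/
def HasWLP {σ : Type*} {K : Type*} [Field K] (I : Ideal (MvPolynomial σ K)) : Prop :=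
  ∃ ℓ ∈ gradedPiece I 1, ∀ i,
    (∀ a ∈ gradedPiece I i, ℓ * a = 0 → a = 0) ∨
      (∀ b ∈ gradedPiece I (i + 1), ∃ a ∈ gradedPiece I i, ℓ * a = b)

end Definitions

section Ext
variable {R : Type*} [CommRing R]

/-- extension lemma for weakly regular sequences along short exact sequences -/
theorem isWeaklyRegular_of_exact (rs : List R) :
    ∀ {M M' M'' : Type*} [AddCommGroup M] [Module R M] [AddCommGroup M'] [Module R M']
      [AddCommGroup M''] [Module R M''] (f : M →ₗ[R] M') (g : M' →ₗ[R] M'')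
      (_ : Function.Injective f) (_ : Function.Exact f g) (_ : Function.Surjective g)
      (_ : IsWeaklyRegular M rs) (_ : IsWeaklyRegular M'' rs), IsWeaklyRegular M' rs := by
  induction rs with
  | nil =>
    intros
    exact IsWeaklyRegular.nil _ _
  | cons r rs ih =>
    intro M M' M'' _ _ _ _ _ _ f g hf hfg hg h1 h2
    rw [isWeaklyRegular_cons_iff] at h1 h2 ⊢
    refine ⟨isSMulRegular_of_range_eq_ker hf hfg.linearMap_ker_eq.symm h1.1 h2.1, ?_⟩
    refine ih (QuotSMulTop.map r f) (QuotSMulTop.map r g) ?_ ?_ ?_ h1.2 h2.2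
    · have h0 : Function.Exact (0 : M →ₗ[R] M) f := by
        intro x
        constructor
        · intro hx
          exact ⟨0, by simp [show x = 0 from hf (by simpa using hx)]⟩
        · rintro ⟨y, rfl⟩
          simp
      have := QuotSMulTop.map_first_exact_on_four_term_exact_of_isSMulRegular_last h0 hfg h2.1
      rw [← LinearMap.ker_eq_bot, LinearMap.ker_eq_bot']
      intro x hx
      obtain ⟨y, hy⟩ := (this x).mp hx
      rw [← hy]
      obtain ⟨y, rfl⟩ := Submodule.mkQ_surjective _ y
      simp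
    · exact QuotSMulTop.map_exact r hfg hg
    · exact QuotSMulTop.map_surjective r hg

end Ext

section Mono
variable {σ : Type*} {K : Type*} [Field K]

/-- ideal of polynomials all of whose monomials have support in no member of the list -/
noncomputable def J (K : Type*) [Field K] (Fs : List (Finset σ)) : Ideal (MvPolynomial σ K) :=
  Ideal.span ((fun s => monomial s (1 : K)) '' {m : σ →₀ ℕ | ∀ F ∈ Fs, ¬ m.support ⊆ F})

theorem mem_J {Fs : List (Finset σ)} {f : MvPolynomial σ K} :
    f ∈ J K Fs ↔ ∀ m ∈ f.support, ∀ F ∈ Fs, ¬ m.support ⊆ F := by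
  classical
  rw [J, mem_ideal_span_monomial_image]
  constructor
  · intro h m hm F hF hs
    obtain ⟨s, hs', hle⟩ := h m hm
    exact hs' F hF ((Finsupp.support_mono hle).trans hs)
  · intro h m hm
    exact ⟨m, h m hm, le_refl _⟩

variable [DecidableEq σ]

/-- one shelling step -/
def ShellStep (prev : List (Finset σ)) (F R : Finset σ) : Prop :=
  R ⊆ F ∧ (∀ E ∈ prev, ¬ R ⊆ E) ∧ (∀ v ∈ R, ∃ E ∈ prev, F.erase v ⊆ E)

theorem step_regular {prev : List (Finset σ)} {F R : Finset σ} (h : ShellStep prev F R)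
    (rs : List (MvPolynomial σ K))
    (h1 : IsWeaklyRegular (MvPolynomial σ K ⧸ J K [F]) rs)
    (h2 : IsWeaklyRegular (MvPolynomial σ K ⧸ J K prev) rs) :
    IsWeaklyRegular (MvPolynomial σ K ⧸ J K (F :: prev)) rs := by
  obtain ⟨hRF, hR, hv⟩ := h
  set x : MvPolynomial σ K := monomial (∑ v ∈ R, Finsupp.single v 1) (1 : K) with hx
  have hsupp : (∑ v ∈ R, Finsupp.single v 1 : σ →₀ ℕ).support = R := by
    ext v
    simp [Finsupp.finsetSum_apply, Finsupp.single_apply]
  have hxmul : ∀ f : MvPolynomial σ K, ∀ m, m ∈ (x * f).support ↔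
      ∃ m' ∈ f.support, m = (∑ v ∈ R, Finsupp.single v 1) + m' := by
    intro f m
    constructor
    · intro hm
      rw [mem_support_iff, hx, coeff_monomial_mul'] at hm
      split_ifs at hm with hle
      · refine ⟨m - ∑ v ∈ R, Finsupp.single v 1, ?_, ?_⟩
        · rw [mem_support_iff]; simpa using hm
        · rw [add_tsub_cancel_of_le hle]
      · exact absurd rfl hm
    · rintro ⟨m', hm', rfl⟩
      rw [mem_support_iff] at hm' ⊢
      rw [hx, coeff_monomial_mul]
      simpa using hm'
  have hsup2 : ∀ m' : σ →₀ ℕ,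
      ((∑ v ∈ R, Finsupp.single v 1) + m').support = R ∪ m'.support := by
    intro m'
    rw [Finsupp.support_add_eq_union, hsupp]
  have hle : J K [F] ≤ Submodule.comap (LinearMap.lsmul (MvPolynomial σ K) (MvPolynomial σ K) x) (J K (F :: prev)) := by
    intro f hf
    rw [Submodule.mem_comap]
    show x * f ∈ _
    rw [mem_J]
    intro m hm E hE hs
    obtain ⟨m', hm', rfl⟩ := (hxmul f m).mp hm
    rw [hsup2] at hs
    rcases List.mem_cons.mp hE with rfl | hE
    · exact (mem_J.mp hf) m' hm' _ (by simp) (Finset.union_subset_iff.mp hs).2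
    · exact hR E hE (Finset.union_subset_iff.mp hs).1
  have hle2 : J K (F :: prev) ≤ J K prev := by
    intro f hf
    rw [mem_J] at hf ⊢
    intro m hm E hE
    exact hf m hm E (List.mem_cons_of_mem _ hE)
  refine isWeaklyRegular_of_exact rs
    ((J K [F]).mapQ (J K (F :: prev)) (LinearMap.lsmul _ (MvPolynomial σ K) x) hle)
    (Submodule.factor hle2) ?_ ?_ ?_ h1 h2
  · rw [← LinearMap.ker_eq_bot, LinearMap.ker_eq_bot']
    intro f hf
    obtain ⟨f, rfl⟩ := Submodule.mkQ_surjective _ f
    rw [Submodule.mkQ_apply, Submodule.mapQ_apply, Submodule.Quotient.mk_eq_zero] at hf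
    rw [Submodule.mkQ_apply, Submodule.Quotient.mk_eq_zero]
    change x * f ∈ _ at hf
    rw [mem_J] at hf ⊢
    intro m hm E hE hs
    obtain rfl : E = F := by simpa using hE
    refine hf _ ((hxmul f _).mpr ⟨m, hm, rfl⟩) E (by simp) ?_
    rw [hsup2]
    exact Finset.union_subset hRF hs
  · intro y
    obtain ⟨f, rfl⟩ := Submodule.mkQ_surjective _ y
    rw [Submodule.factor_mk, Submodule.mkQ_apply, Submodule.mkQ_apply]
    constructor
    · intro hf
      rw [Submodule.Quotient.mk_eq_zero, mem_J] at hf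
      have hmem : f ∈ J K (F :: prev) ⊔ Ideal.span {x} := by
        rw [f.as_sum]
        refine Ideal.sum_mem _ (fun m hm => ?_)
        by_cases hmF : m.support ⊆ F
        · refine Ideal.mem_sup_right (Ideal.mem_span_singleton.mpr ?_)
          have hRm : R ⊆ m.support := by
            intro v hvR
            by_contra hvm
            obtain ⟨E, hE, hEs⟩ := hv v hvR
            exact hf m hm E hE (fun w hw => hEs (Finset.mem_erase.mpr
              ⟨fun h => hvm (h ▸ hw), hmF hw⟩))
          have hle' : (∑ v ∈ R, Finsupp.single v 1 : σ →₀ ℕ) ≤ m := by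
            intro v
            rw [Finsupp.finsetSum_apply]
            simp only [Finsupp.single_apply, Finset.sum_ite_eq']
            split_ifs with hvR
            · exact Nat.one_le_iff_ne_zero.mpr (Finsupp.mem_support_iff.mp (hRm hvR))
            · exact Nat.zero_le _
          refine ⟨monomial (m - ∑ v ∈ R, Finsupp.single v 1) (coeff m f), ?_⟩
          rw [hx, monomial_mul, add_tsub_cancel_of_le hle', one_mul]
        · refine Ideal.mem_sup_left (mem_J.mpr ?_)
          intro m' hm' E hE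
          obtain rfl : m' = m := by
            by_contra hne
            rw [mem_support_iff, coeff_monomial, if_neg (Ne.symm hne)] at hm'
            exact hm' rfl
          rcases List.mem_cons.mp hE with rfl | hE
          · exact hmF
          · exact hf _ hm E hE
      obtain ⟨a, ha, b, hb, hab⟩ := Submodule.mem_sup.mp hmem
      obtain ⟨h, rfl⟩ := Ideal.mem_span_singleton.mp hb
      refine ⟨Submodule.Quotient.mk h, ?_⟩
      rw [Submodule.mapQ_apply, Submodule.Quotient.eq, ← hab]
      show x * h - (a + x * h) ∈ _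
      have : x * h - (a + x * h) = -a := by ring
      rw [this]
      exact Submodule.neg_mem _ ha
    · rintro ⟨y, hy⟩
      obtain ⟨h, rfl⟩ := Submodule.mkQ_surjective _ y
      rw [Submodule.mkQ_apply, Submodule.mapQ_apply, Submodule.Quotient.eq] at hy
      rw [Submodule.Quotient.mk_eq_zero]
      have h3 : x * h ∈ J K prev := by
        rw [mem_J]
        intro m hm E hE hs
        obtain ⟨m', hm', rfl⟩ := (hxmul h m).mp hm
        rw [hsup2] at hs
        exact hR E hE (Finset.union_subset_iff.mp hs).1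
      have h4 : x * h - f ∈ J K prev := hle2 hy
      have h5 : f = x * h - (x * h - f) := by ring
      rw [h5]
      exact Submodule.sub_mem _ h3 h4
  · exact Submodule.factor_surjective hle2

end Mono


section Vars

theorem regular_vars (K : Type*) [Field K] (d : ℕ) :
    IsWeaklyRegular (MvPolynomial (Fin d) K) (List.ofFn (fun i : Fin d => (X i : MvPolynomial (Fin d) K))) := by
  constructor
  intro i hi
  have hid : i < d := by simpa using hi
  rw [isSMulRegular_quotient_iff_mem_of_smul_mem]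
  have hI : (Ideal.ofList ((List.ofFn (fun i : Fin d => (X i : MvPolynomial (Fin d) K))).take i) • ⊤ :
      Submodule (MvPolynomial (Fin d) K) (MvPolynomial (Fin d) K)) =
      Ideal.span (X '' {j : Fin d | (j : ℕ) < i}) := by
    rw [smul_eq_mul, Ideal.mul_top, Ideal.ofList]
    congr 1
    ext r
    simp only [Set.mem_ofPred_eq, List.mem_take_iff_getElem, Set.mem_image, List.length_ofFn,
      List.getElem_ofFn]
    constructor
    · rintro ⟨j, hj, rfl⟩
      have hj' : j < i := by omega
      exact ⟨⟨j, by omega⟩, hj', rfl⟩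
    · rintro ⟨j, hj, rfl⟩
      exact ⟨j, by omega, rfl⟩
  rw [hI]
  intro f hf
  rw [List.getElem_ofFn, smul_eq_mul, mem_ideal_span_X_image] at hf
  rw [mem_ideal_span_X_image]
  intro m hm
  obtain ⟨j, hj, hj'⟩ := hf (m + Finsupp.single ⟨i, hid⟩ 1) (by
    rw [mem_support_iff] at hm ⊢
    rwa [mul_comm, coeff_mul_X])
  refine ⟨j, hj, ?_⟩
  have hne : (⟨i, hid⟩ : Fin d) ≠ j := by
    intro h
    have : (j : ℕ) < i := hj
    rw [← h] at this
    exact lt_irrefl _ this
  simpa [Finsupp.single_apply, hne] using hj'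

end Vars

section Lin
variable {σ : Type*} {K : Type*} [Field K]

theorem lin_eq [Fintype σ] {f : MvPolynomial σ K} (hf : f.IsHomogeneous 1) :
    f = ∑ v, C (coeff (Finsupp.single v 1) f) * X v := by
  classical
  ext m
  rw [coeff_sum]
  simp only [coeff_C_mul, coeff_X]
  by_cases hm : ∃ v, Finsupp.single v 1 = m
  · obtain ⟨v, rfl⟩ := hm
    rw [Finset.sum_eq_single v]
    · simp
    · intro w _ hw
      rw [if_neg, mul_zero]
      intro h
      exact hw ((Finsupp.single_left_inj one_ne_zero).mp h)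
    · simp
  · rw [Finset.sum_eq_zero]
    · by_contra hne
      have := hf hne
      apply hm
      rw [Finsupp.weight_apply] at this
      simp only [Pi.one_apply, smul_eq_mul, mul_one] at this
      obtain ⟨v, hv⟩ := (Finsupp.sum_eq_one_iff m).mp this
      exact ⟨v, hv.symm⟩
    · intro v _
      rw [if_neg, mul_zero]
      exact fun h => hm ⟨v, h⟩

end Lin

section Facet
variable {σ : Type*} {K : Type*} [Field K] [Fintype σ] [DecidableEq σ]

/-- linear coefficient -/
noncomputable def lc (f : MvPolynomial σ K) (v : σ) : K := coeff (Finsupp.single v 1) f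

theorem facet_inverse {d : ℕ} (Θ : Fin d → MvPolynomial σ K) (F : Finset σ) (hF : F.card = d)
    (hind : ∀ p : σ → K, (∀ v, v ∉ F → p v = 0) → (∀ i, ∑ v, p v * lc (Θ i) v = 0) → p = 0) :
    ∃ B : σ → Fin d → K, (∀ v, v ∉ F → ∀ j, B v j = 0) ∧
      (∀ i j, ∑ v, B v j * lc (Θ i) v = if i = j then 1 else 0) ∧
      (∀ v ∈ F, ∀ w ∈ F, ∑ j, B v j * lc (Θ j) w = if v = w then 1 else 0) := by
  -- extension by zero
  let ext : (F → K) →ₗ[K] (σ → K) :=
    { toFun := fun p v => if h : v ∈ F then p ⟨v, h⟩ else 0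
      map_add' := by
        intro p q; ext v; simp only [Pi.add_apply]; split_ifs <;> simp
      map_smul' := by
        intro c p; ext v; simp only [Pi.smul_apply, RingHom.id_apply]; split_ifs <;> simp }
  have hext : ∀ (p : F → K) (v : σ) (h : v ∈ F), ext p v = p ⟨v, h⟩ := by
    intro p v h; exact dif_pos h
  have hext0 : ∀ (p : F → K) (v : σ) (h : v ∉ F), ext p v = 0 := by
    intro p v h; exact dif_neg h
  let L0 : (σ → K) →ₗ[K] (Fin d → K) :=
    { toFun := fun p i => ∑ v, p v * lc (Θ i) v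
      map_add' := by
        intro p q; ext i; simp only [Pi.add_apply, add_mul, Finset.sum_add_distrib]
      map_smul' := by
        intro c p; ext i
        simp only [Pi.smul_apply, smul_eq_mul, RingHom.id_apply, Finset.mul_sum, mul_assoc] }
  let L : (F → K) →ₗ[K] (Fin d → K) := L0 ∘ₗ ext
  have hLinj : Function.Injective L := by
    rw [← LinearMap.ker_eq_bot, LinearMap.ker_eq_bot']
    intro p hp
    have := hind (ext p) (hext0 p) (fun i => congrFun hp i)
    ext ⟨v, hv⟩
    rw [← hext p v hv, this]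
    rfl
  have hfin : Module.finrank K (F → K) = Module.finrank K (Fin d → K) := by
    simp [hF]
  let e := LinearEquiv.ofInjectiveOfFinrankEq L hLinj hfin
  have he : ∀ p, e p = L p := fun p => rfl
  refine ⟨fun v j => ext (e.symm (Pi.single j 1)) v, ?_, ?_, ?_⟩
  · intro v hv j
    exact hext0 _ v hv
  · intro i j
    have h1 : L (e.symm (Pi.single j 1)) i = (Pi.single j 1 : Fin d → K) i := by
      rw [← he, e.apply_symm_apply]
    rw [Pi.single_apply] at h1
    exact h1
  · intro v hv w hw
    have h1 : ∑ j, (lc (Θ j) w) • (Pi.single j 1 : Fin d → K) = e (Pi.single (⟨w, hw⟩ : F) 1) := by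
      ext i
      rw [he]
      have h2 : L (Pi.single (⟨w, hw⟩ : F) 1) i =
          ∑ v, ext (Pi.single (⟨w, hw⟩ : F) 1) v * lc (Θ i) v := rfl
      rw [h2, Finset.sum_eq_single w]
      · rw [hext _ w hw]
        simp [Finset.sum_apply, Pi.single_apply]
      · intro b _ hb
        by_cases hbF : b ∈ F
        · rw [hext _ b hbF, Pi.single_apply, if_neg, zero_mul]
          intro h
          exact hb (congrArg Subtype.val h)
        · rw [hext0 _ b hbF, zero_mul]
      · simp
    have h3 : ∑ j, ext (e.symm (Pi.single j 1)) v * lc (Θ j) w =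
        ext (e.symm (∑ j, (lc (Θ j) w) • (Pi.single j 1 : Fin d → K))) v := by
      rw [map_sum, map_sum, Finset.sum_apply]
      refine Finset.sum_congr rfl (fun j _ => ?_)
      rw [map_smul, map_smul, Pi.smul_apply, smul_eq_mul, mul_comm]
    rw [h3, h1, e.symm_apply_apply, hext _ v hv, Pi.single_apply]
    simp only [Subtype.mk.injEq]

theorem facet_regular {d : ℕ} (Θ : Fin d → MvPolynomial σ K) (hΘ : ∀ i, (Θ i).IsHomogeneous 1)
    (F : Finset σ) (hF : F.card = d)
    (hind : ∀ p : σ → K, (∀ v, v ∉ F → p v = 0) → (∀ i, ∑ v, p v * lc (Θ i) v = 0) → p = 0) :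
    IsWeaklyRegular (MvPolynomial σ K ⧸ J K [F]) (List.ofFn Θ) := by
  obtain ⟨B, hB0, hB1, hB2⟩ := facet_inverse Θ F hF hind
  let φ : MvPolynomial σ K →ₐ[K] MvPolynomial (Fin d) K :=
    aeval (fun v => ∑ j, C (B v j) * X j)
  have hφΘ : ∀ i, φ (Θ i) = X i := by
    intro i
    conv_lhs => rw [lin_eq (hΘ i)]
    simp only [φ, map_sum, map_mul, aeval_C, aeval_X, algebraMap_eq]
    simp only [Finset.mul_sum]
    rw [Finset.sum_comm]
    have : ∀ j, ∑ v, C (coeff (Finsupp.single v 1) (Θ i)) * (C (B v j) * X j) =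
        C (if i = j then 1 else 0) * (X j : MvPolynomial (Fin d) K) := by
      intro j
      rw [← hB1 i j, map_sum, Finset.sum_mul]
      refine Finset.sum_congr rfl (fun v _ => ?_)
      rw [lc, C_mul]; ring
    simp only [this]
    simp
  have hsurj : Function.Surjective φ := by
    intro g
    refine ⟨aeval Θ g, ?_⟩
    have h1 : φ.comp (aeval Θ) = AlgHom.id K (MvPolynomial (Fin d) K) := by
      ext i
      simp [hφΘ]
    exact congrArg (fun h => h g) h1
  -- restriction
  let ρ : MvPolynomial σ K →ₐ[K] MvPolynomial σ K := aeval (fun v => if v ∈ F then X v else 0)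
  let ψ : MvPolynomial (Fin d) K →ₐ[K] MvPolynomial σ K :=
    aeval (fun j => ∑ w ∈ F, C (lc (Θ j) w) * X w)
  have hψφ : ψ.comp φ = ρ := by
    refine algHom_ext (fun v => ?_)
    simp only [φ, ψ, ρ, AlgHom.comp_apply, aeval_X, map_sum, map_mul, aeval_C, algebraMap_eq]
    split_ifs with hv
    · simp only [Finset.mul_sum]
      rw [Finset.sum_comm]
      have : ∀ w ∈ F, ∑ j, C (B v j) * (C (lc (Θ j) w) * X w) =
          C (if v = w then 1 else 0) * (X w : MvPolynomial σ K) := by
        intro w hw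
        rw [← hB2 v hv w hw, map_sum, Finset.sum_mul]
        refine Finset.sum_congr rfl (fun j _ => ?_)
        rw [C_mul]; ring
      rw [Finset.sum_congr rfl this]
      simp [hv]
    · refine Finset.sum_eq_zero (fun j _ => ?_)
      rw [hB0 v hv j]; simp
  have hρ : ∀ f, f - ρ f ∈ J K [F] := by
    intro f
    induction f using MvPolynomial.induction_on with
    | C a => simp [ρ]
    | add p q hp hq =>
      have : p + q - ρ (p + q) = (p - ρ p) + (q - ρ q) := by rw [map_add]; ring
      rw [this]; exact Submodule.add_mem _ hp hq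
    | mul_X p v hp =>
      have h1 : p * X v - ρ (p * X v) = X v * (p - ρ p) + ρ p * (X v - ρ (X v)) := by
        rw [map_mul]; ring
      rw [h1]
      refine Submodule.add_mem _ (Ideal.mul_mem_left _ _ hp) (Ideal.mul_mem_left _ _ ?_)
      simp only [ρ, aeval_X]
      split_ifs with hv
      · simp
      · rw [sub_zero, mem_J]
        intro m hm E hE hs
        obtain rfl : E = F := by simpa using hE
        rw [mem_support_iff, coeff_X] at hm
        have hm' : Finsupp.single v 1 = m := by
          by_contra h; rw [if_neg h] at hm; exact hm rfl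
        rw [← hm'] at hs
        apply hv
        apply hs
        simp
  have hker : RingHom.ker φ = J K [F] := by
    apply le_antisymm
    · intro f hf
      have h1 : ρ f = 0 := by
        rw [← hψφ, AlgHom.comp_apply, (RingHom.mem_ker).mp hf, map_zero]
      have := hρ f
      rwa [h1, sub_zero] at this
    · rw [J, Ideal.span_le]
      rintro _ ⟨m, hm, rfl⟩
      have hm' : ¬ m.support ⊆ F := hm F (by simp)
      obtain ⟨v, hv, hvF⟩ := Finset.not_subset.mp hm'
      rw [SetLike.mem_coe, RingHom.mem_ker]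
      show φ (monomial m 1) = 0
      simp only [φ, aeval_monomial]
      rw [Finsupp.prod, Finset.prod_eq_zero hv, mul_zero]
      rw [Finset.sum_eq_zero (fun j _ => by rw [hB0 v hvF j]; simp)]
      exact zero_pow (Finsupp.mem_support_iff.mp hv)
  let e : (MvPolynomial σ K ⧸ J K [F]) ≃+* MvPolynomial (Fin d) K :=
    (Ideal.quotEquivOfEq hker.symm).trans (RingHom.quotientKerEquivOfSurjective (f := (φ : MvPolynomial σ K →+* MvPolynomial (Fin d) K)) hsurj)
  have he : ∀ f, e (Ideal.Quotient.mk _ f) = φ f := fun f => rfl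
  refine (AddEquiv.isWeaklyRegular_congr (e := e.toAddEquiv) ?_).mpr (regular_vars K d)
  rw [List.forall₂_iff_get]
  refine ⟨by simp, fun i h1 h2 x => ?_⟩
  simp only [List.get_eq_getElem, List.getElem_ofFn]
  obtain ⟨f, rfl⟩ := Ideal.Quotient.mk_surjective x
  show e (Ideal.Quotient.mk _ (Θ _ * f)) = X _ * e (Ideal.Quotient.mk _ f)
  rw [he, he, map_mul, hφΘ]
end Facet


section Shell
variable {σ : Type*} {K : Type*} [Field K] [Fintype σ] [DecidableEq σ]

/-- list of (facet, restriction), last facet first -/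
def IsShelling : List (Finset σ × Finset σ) → Prop
  | [] => True
  | (p :: l) => ShellStep (l.map Prod.fst) p.1 p.2 ∧ IsShelling l

theorem shelling_regular {d : ℕ} (Θ : Fin d → MvPolynomial σ K)
    (hΘ : ∀ i, (Θ i).IsHomogeneous 1) :
    ∀ (l : List (Finset σ × Finset σ)), IsShelling l →
      (∀ p ∈ l, p.1.card = d ∧ (∀ q : σ → K, (∀ v, v ∉ p.1 → q v = 0) →
        (∀ i, ∑ v, q v * lc (Θ i) v = 0) → q = 0)) →
      IsWeaklyRegular (MvPolynomial σ K ⧸ J K (l.map Prod.fst)) (List.ofFn Θ) := by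
  intro l
  induction l with
  | nil =>
    intro _ _
    have htop : J K ([] : List (Finset σ)) = ⊤ := by
      rw [Ideal.eq_top_iff_one, mem_J]
      intro m _ F hF
      simp at hF
    have : Subsingleton (MvPolynomial σ K ⧸ J K ([] : List (Finset σ))) := by
      rw [htop]; infer_instance
    constructor
    intro i hi
    have : Subsingleton ((MvPolynomial σ K ⧸ J K ([] : List (Finset σ))) ⧸
      (Ideal.ofList ((List.ofFn Θ).take i) • ⊤ :
        Submodule (MvPolynomial σ K) (MvPolynomial σ K ⧸ J K ([] : List (Finset σ))))) :=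
      (Submodule.mkQ_surjective _).subsingleton
    intro a b _
    exact Subsingleton.elim _ _
  | cons p l ih =>
    intro hs hl
    obtain ⟨h1, h2⟩ := hs
    rw [List.map_cons]
    refine step_regular h1 _ ?_ (ih h2 (fun q hq => hl q (List.mem_cons_of_mem _ hq)))
    obtain ⟨hc, hi⟩ := hl p (by simp)
    exact facet_regular Θ hΘ p.1 hc hi

end Shell


section LSOP
variable {σ : Type*} {K : Type*} [Field K] [Fintype σ] [DecidableEq σ]

theorem mem_srIdeal {Δ : AbstractSimplicialComplex σ} {f : MvPolynomial σ K} :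
    f ∈ srIdeal K Δ ↔ ∀ m ∈ f.support, m.support.Nonempty ∧ m.support ∉ Δ.faces := by
  have h1 : {m : MvPolynomial σ K | ∃ s : Finset σ, s.Nonempty ∧ s ∉ Δ.faces ∧ m = ∏ v ∈ s, X v} =
      (fun s => monomial s (1 : K)) ''
        {m : σ →₀ ℕ | ∃ s : Finset σ, s.Nonempty ∧ s ∉ Δ.faces ∧ m = ∑ v ∈ s, Finsupp.single v 1} := by
    ext m
    constructor
    · rintro ⟨s, hs, hs', rfl⟩
      refine ⟨_, ⟨s, hs, hs', rfl⟩, ?_⟩
      simp only [monomial_sum_one]
      rfl
    · rintro ⟨_, ⟨s, hs, hs', rfl⟩, rfl⟩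
      refine ⟨s, hs, hs', ?_⟩
      simp only [monomial_sum_one]
      rfl
  rw [srIdeal, h1, mem_ideal_span_monomial_image]
  refine forall₂_congr (fun m _ => ?_)
  constructor
  · rintro ⟨_, ⟨s, hs, hs', rfl⟩, hle⟩
    have hsub : s ⊆ m.support := by
      intro v hv
      have := hle v
      rw [Finsupp.finsetSum_apply] at this
      simp only [Finsupp.single_apply, Finset.sum_ite_eq', hv, if_true] at this
      exact Finsupp.mem_support_iff.mpr (by omega)
    refine ⟨hs.mono hsub, fun hmem => hs' ?_⟩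
    exact (Δ.isRelLowerSet_faces hmem).2 hsub hs
  · rintro ⟨h1, h2⟩
    refine ⟨_, ⟨m.support, h1, h2, rfl⟩, ?_⟩
    intro v
    rw [Finsupp.finsetSum_apply]
    simp only [Finsupp.single_apply, Finset.sum_ite_eq']
    split_ifs with hv
    · exact Nat.one_le_iff_ne_zero.mpr (Finsupp.mem_support_iff.mp hv)
    · exact Nat.zero_le _

theorem lsop_independent {Δ : AbstractSimplicialComplex σ} {d : ℕ} {Θ : Fin d → MvPolynomial σ K}
    (h : IsLSOP K Δ Θ) {F : Finset σ} (hF : F ∈ Δ.faces) (p : σ → K)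
    (hp : ∀ v, v ∉ F → p v = 0) (hp2 : ∀ i, ∑ v, p v * lc (Θ i) v = 0) : p = 0 := by
  by_contra hne
  obtain ⟨w, hw⟩ : ∃ w, p w ≠ 0 := by
    by_contra hcon
    push Not at hcon
    exact hne (funext hcon)
  let ev : MvPolynomial σ K →ₐ[K] Polynomial K := aeval (fun v => Polynomial.C (p v) * Polynomial.X)
  have hI : srIdeal K Δ ⊔ Ideal.span (Set.range Θ) ≤ RingHom.ker ev := by
    refine sup_le ?_ ?_
    · rw [srIdeal, Ideal.span_le]
      rintro _ ⟨s, hs, hs', rfl⟩
      rw [SetLike.mem_coe, RingHom.mem_ker, map_prod]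
      have : ¬ s ⊆ F := fun hsF => hs' ((Δ.isRelLowerSet_faces hF).2 hsF hs)
      obtain ⟨v, hv, hvF⟩ := Finset.not_subset.mp this
      refine Finset.prod_eq_zero hv ?_
      simp [ev, hp v hvF]
    · rw [Ideal.span_le]
      rintro _ ⟨i, rfl⟩
      rw [SetLike.mem_coe, RingHom.mem_ker, lin_eq (h.linear i), map_sum]
      simp only [map_mul, ev, aeval_C, aeval_X]
      have h3 : ∀ v, (algebraMap K (Polynomial K)) (coeff (Finsupp.single v 1) (Θ i)) *
          (Polynomial.C (p v) * Polynomial.X) =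
          Polynomial.C (p v * lc (Θ i) v) * Polynomial.X := by
        intro v
        rw [lc, Polynomial.algebraMap_eq, Polynomial.C_mul]
        ring
      simp only [h3]
      rw [← Finset.sum_mul, ← map_sum, hp2 i]
      simp
  have := h.finite
  let ev' : (MvPolynomial σ K ⧸ (srIdeal K Δ ⊔ Ideal.span (Set.range Θ))) →ₐ[K] Polynomial K :=
    Ideal.Quotient.liftₐ _ ev (fun a ha => hI ha)
  have hsurj : Function.Surjective ev' := by
    intro g
    refine ⟨Ideal.Quotient.mk _ (Polynomial.aeval (C (p w)⁻¹ * X w) g), ?_⟩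
    have h1 : ev' (Ideal.Quotient.mk _ (Polynomial.aeval (C (p w)⁻¹ * X w) g)) =
        ev (Polynomial.aeval (C (p w)⁻¹ * X w) g) := rfl
    rw [h1, ← Polynomial.aeval_algHom_apply]
    have h2 : ev (C (p w)⁻¹ * X w) = Polynomial.X := by
      simp only [ev, map_mul, aeval_C, aeval_X, Polynomial.algebraMap_eq]
      rw [← mul_assoc, ← Polynomial.C_mul, inv_mul_cancel₀ hw]
      simp
    rw [h2]
    exact Polynomial.aeval_X_left_apply g
  have : Module.Finite K (Polynomial K) := Module.Finite.of_surjective ev'.toLinearMap hsurj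
  exact Polynomial.not_finite this

end LSOP


section Sd

theorem exists_lsop {V : Type*} [DecidableEq V] {Γ : AbstractSimplicialComplex V} [Fintype Γ.faces]
    {d : ℕ} (hd : ∀ s ∈ Γ.faces, s.card ≤ d) (K : Type*) [Field K] :
    IsLSOP K (sd Γ) (fun i : Fin d => ∑ v : Γ.faces,
      if (v : Finset V).card = i + 1 then (X v : MvPolynomial Γ.faces K) else 0) := by
  classical
  set Θ : Fin d → MvPolynomial Γ.faces K := fun i => ∑ v : Γ.faces,
      if (v : Finset V).card = i + 1 then (X v : MvPolynomial Γ.faces K) else 0 with hΘ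
  constructor
  · intro i
    refine IsHomogeneous.sum _ _ _ (fun v _ => ?_)
    split_ifs
    · exact isHomogeneous_X _ _
    · exact isHomogeneous_zero _ _ _
  · set I := srIdeal K (sd Γ) ⊔ Ideal.span (Set.range Θ) with hI
    have hsq : ∀ v : Γ.faces, (X v * X v : MvPolynomial Γ.faces K) ∈ I := by
      intro v
      have hpos : 0 < (v : Finset V).card := Finset.card_pos.mpr (Γ.isRelLowerSet_faces v.2).1
      have hle := hd v v.2
      let i : Fin d := ⟨(v : Finset V).card - 1, by omega⟩
      have h1 : X v * Θ i = X v * X v + ∑ w ∈ Finset.univ.erase v,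
          (if (w : Finset V).card = i + 1 then (X v * X w : MvPolynomial Γ.faces K) else 0) := by
        simp only [hΘ]
        rw [Finset.mul_sum, ← Finset.add_sum_erase _ _ (Finset.mem_univ v)]
        congr 1
        · rw [if_pos]
          show _ = (v : Finset V).card - 1 + 1
          omega
        · refine Finset.sum_congr rfl (fun w _ => ?_)
          rw [mul_ite, mul_zero]
      have h2 : X v * Θ i ∈ I :=
        Ideal.mul_mem_left _ _ (Ideal.mem_sup_right (Ideal.subset_span ⟨i, rfl⟩))
      have h3 : ∑ w ∈ Finset.univ.erase v,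
          (if (w : Finset V).card = i + 1 then (X v * X w : MvPolynomial Γ.faces K) else 0) ∈ I := by
        refine Ideal.sum_mem _ (fun w hw => ?_)
        split_ifs with hc
        · refine Ideal.mem_sup_left (Ideal.subset_span ⟨{v, w}, by simp, ?_, ?_⟩)
          · rintro ⟨_, hch⟩
            have hcard : (w : Finset V).card = (v : Finset V).card := by
              rw [hc]; show (v : Finset V).card - 1 + 1 = _; omega
            have hne : v ≠ w := (Finset.ne_of_mem_erase hw).symm
            rcases hch v (by simp) w (by simp) with h | h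
            · exact hne (Subtype.ext (Finset.eq_of_subset_of_card_le h hcard.le))
            · exact hne (Subtype.ext (Finset.eq_of_subset_of_card_le h hcard.ge).symm)
          · rw [Finset.prod_pair (Finset.ne_of_mem_erase hw).symm]
        · exact Submodule.zero_mem _
      have h4 : (X v * X v : MvPolynomial Γ.faces K) = X v * Θ i - ∑ w ∈ Finset.univ.erase v,
          (if (w : Finset V).card = i + 1 then (X v * X w : MvPolynomial Γ.faces K) else 0) := by
        rw [h1]; ring
      rw [h4]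
      exact Submodule.sub_mem _ h2 h3
    have hint : ∀ x : MvPolynomial Γ.faces K ⧸ I, IsIntegral K x := by
      intro x
      obtain ⟨f, rfl⟩ := Ideal.Quotient.mk_surjective x
      induction f using MvPolynomial.induction_on with
      | C a => exact isIntegral_algebraMap (R := K) (A := MvPolynomial Γ.faces K ⧸ I) (x := a)
      | add p q hp hq => rw [map_add]; exact hp.add hq
      | mul_X p v hp =>
        rw [map_mul]
        refine hp.mul ⟨Polynomial.X ^ 2, Polynomial.monic_X_pow 2, ?_⟩
        rw [Polynomial.eval₂_pow, Polynomial.eval₂_X, ← map_pow, Ideal.Quotient.eq_zero_iff_mem,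
          pow_two]
        exact hsq v
    have : Algebra.IsIntegral K (MvPolynomial Γ.faces K ⧸ I) := ⟨hint⟩
    have : Algebra.FiniteType K (MvPolynomial Γ.faces K ⧸ I) := inferInstance
    exact Algebra.IsIntegral.finite

end Sd


section Concrete

/-- the complex: the 2-skeleton of the simplex on 0..4 together with the triangle {0,1,5} -/
def Gam : AbstractSimplicialComplex (Fin 6) where
  faces := {s | s.Nonempty ∧ ((s ⊆ {0, 1, 2, 3, 4} ∧ s.card ≤ 3) ∨ s ⊆ {0, 1, 5})}
  isRelLowerSet_faces := by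
    rintro s ⟨hs, hc⟩
    refine ⟨hs, fun t hts ht => ⟨ht, ?_⟩⟩
    rcases hc with ⟨h1, h2⟩ | h1
    · exact Or.inl ⟨hts.trans h1, (Finset.card_le_card hts).trans h2⟩
    · exact Or.inr (hts.trans h1)
  singleton_mem := by
    intro v
    show ({v} : Finset (Fin 6)).Nonempty ∧ ((({v} : Finset (Fin 6)) ⊆ {0, 1, 2, 3, 4} ∧
      ({v} : Finset (Fin 6)).card ≤ 3) ∨ ({v} : Finset (Fin 6)) ⊆ {0, 1, 5})
    revert v
    decide

theorem mem_Gam {s : Finset (Fin 6)} : s ∈ Gam.faces ↔
    (s.Nonempty ∧ ((s ⊆ {0, 1, 2, 3, 4} ∧ s.card ≤ 3) ∨ s ⊆ {0, 1, 5})) := Iff.rfl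

instance : DecidablePred (· ∈ Gam.faces) := fun s =>
  decidable_of_iff _ (mem_Gam (s := s)).symm

instance : Fintype Gam.faces := Subtype.fintype _

def vf : Fin 29 → Finset (Fin 6) :=
  ![{0}, {1}, {2}, {3}, {4}, {5}, {0, 1}, {0, 2}, {0, 3}, {0, 4}, {0, 5}, {1, 2}, {1, 3}, {1, 4}, {1, 5}, {2, 3}, {2, 4}, {3, 4}, {0, 1, 2}, {0, 1, 3}, {0, 1, 4}, {0, 1, 5}, {0, 2, 3}, {0, 2, 4}, {0, 3, 4}, {1, 2, 3}, {1, 2, 4}, {1, 3, 4}, {2, 3, 4}]

/-- flags (vertex, edge, triangle) of the complex with their restriction sets, last one first -/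
def L0 : List (Fin 29 × Fin 29 × Fin 29 × Finset (Fin 29)) :=
  [ (4, 16, 26, {4, 16, 26}),
    (2, 11, 18, {2, 11, 18}),
    (1, 13, 20, {1, 13, 20}),
    (3, 15, 28, {3, 15, 28}),
    (3, 17, 28, {3, 28}),
    (4, 17, 28, {17, 28}),
    (4, 16, 28, {4, 28}),
    (4, 16, 23, {4, 16}),
    (2, 16, 23, {16, 23}),
    (2, 7, 23, {2, 23}),
    (0, 7, 23, {7, 23}),
    (0, 9, 23, {0, 23}),
    (2, 7, 18, {2, 18}),
    (2, 7, 22, {2, 7}),
    (4, 13, 26, {4, 26}),
    (1, 13, 26, {13, 26}),
    (1, 14, 21, {1, 14}),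
    (1, 6, 21, {1, 21}),
    (1, 13, 27, {1, 13}),
    (1, 12, 27, {1, 27}),
    (3, 12, 27, {12, 27}),
    (3, 17, 27, {3, 27}),
    (3, 17, 24, {3, 17}),
    (3, 8, 24, {3, 24}),
    (1, 6, 20, {1, 20}),
    (2, 15, 28, {15, 28}),
    (2, 15, 22, {2, 22}),
    (3, 15, 22, {15, 22}),
    (3, 8, 22, {3, 22}),
    (3, 8, 19, {3, 8}),
    (0, 8, 19, {8, 19}),
    (5, 14, 21, {14}),
    (5, 10, 21, {5}),
    (0, 10, 21, {10}),
    (0, 6, 21, {21}),
    (0, 6, 19, {0, 19}),
    (4, 17, 24, {17, 24}),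
    (4, 9, 24, {4, 24}),
    (2, 16, 28, {28}),
    (0, 9, 24, {9, 24}),
    (2, 15, 25, {2, 15}),
    (1, 11, 18, {11, 18}),
    (3, 15, 25, {15}),
    (3, 12, 25, {3, 25}),
    (4, 17, 27, {17}),
    (2, 11, 25, {2, 25}),
    (4, 13, 27, {27}),
    (4, 13, 20, {13}),
    (4, 9, 23, {23}),
    (4, 9, 20, {4}),
    (0, 9, 20, {9}),
    (0, 8, 24, {24}),
    (0, 8, 22, {8}),
    (0, 7, 22, {22}),
    (0, 7, 18, {7}),
    (0, 6, 20, {20}),
    (0, 6, 18, {0}),
    (1, 6, 18, {18}),
    (3, 12, 19, {3}),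
    (1, 6, 19, {6}),
    (1, 12, 19, {19}),
    (1, 12, 25, {12}),
    (1, 11, 25, {25}),
    (2, 16, 26, {16}),
    (1, 11, 26, {1}),
    (2, 11, 26, ∅)]

def L : List (Finset (Fin 29) × Finset (Fin 29)) :=
  L0.map (fun t => ({t.1, t.2.1, t.2.2.1}, t.2.2.2))

def tab : List ℕ := [33294273, 238843970, 382044292, 457871624, 496181776, 2114592, 3932227, 12845189, 21496073, 26214929, 2098209, 100927494, 168300554, 202383378, 2113570, 306216972, 343998484, 419561496, 264391, 528715, 1057363, 2114659, 4227469, 8454805, 16909081, 33593358, 67184662, 134361114, 268664860]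

def adj (i j : Fin 29) : Bool := (tab.getD i.val 0).testBit j.val

theorem vf_mem : ∀ i, vf i ∈ Gam.faces := by decide +kernel
theorem vf_inj : ∀ i j, vf i = vf j → i = j := by decide +kernel
theorem vf_surj : ∀ s : Finset (Fin 6), s ∈ Gam.faces → ∃ i, vf i = s := by decide +kernel

def cmq (i j : Fin 29) : Prop := vf i ⊆ vf j ∨ vf j ⊆ vf i
instance : ∀ i j, Decidable (cmq i j) := fun i j => by unfold cmq; infer_instance

instance decShellStep {σ : Type*} [DecidableEq σ] (prev : List (Finset σ)) (F R : Finset σ) :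
    Decidable (ShellStep prev F R) := by
  unfold ShellStep; infer_instance

instance decIsShelling {σ : Type*} [DecidableEq σ] :
    ∀ l : List (Finset σ × Finset σ), Decidable (IsShelling l)
  | [] => isTrue trivial
  | (p :: l) => by
    have := decIsShelling l
    unfold IsShelling
    infer_instance

theorem L_shelling : IsShelling L := by decide +kernel

theorem cmq_iff : ∀ i j, cmq i j ↔ adj i j = true := by decide +kernel

theorem L0_all : L0.all (fun t => (adj t.1 t.2.1 && adj t.2.1 t.2.2.1 && adj t.1 t.2.2.1) &&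
    (t.1 != t.2.1 && t.2.1 != t.2.2.1 && t.1 != t.2.2.1)) = true := by decide +kernel

theorem L0_adj : ∀ t ∈ L0, (adj t.1 t.2.1 = true ∧ adj t.2.1 t.2.2.1 = true ∧
    adj t.1 t.2.2.1 = true) ∧ t.1 ≠ t.2.1 ∧ t.2.1 ≠ t.2.2.1 ∧ t.1 ≠ t.2.2.1 := by
  intro t ht
  have h := (List.all_eq_true.mp L0_all) t ht
  simp only [Bool.and_eq_true, bne_iff_ne] at h
  exact ⟨⟨h.1.1.1, h.1.1.2, h.1.2⟩, h.2.1.1, h.2.1.2, h.2.2⟩

theorem L_card : ∀ p ∈ L, p.1.card = 3 ∧ ∀ i ∈ p.1, ∀ j ∈ p.1, cmq i j := by
  intro p hp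
  obtain ⟨t, ht, rfl⟩ := List.mem_map.mp hp
  obtain ⟨⟨h1, h2, h3⟩, h4, h5, h6⟩ := L0_adj t ht
  rw [← cmq_iff] at h1 h2 h3
  constructor
  · exact Finset.card_eq_three.mpr ⟨_, _, _, h4, h6, h5, rfl⟩
  · intro x hx y hy
    simp only [Finset.mem_insert, Finset.mem_singleton] at hx hy
    rcases hx with rfl | rfl | rfl <;> rcases hy with rfl | rfl | rfl
    · exact Or.inl (Finset.Subset.refl _)
    · exact h1
    · exact h3
    · exact h1.symm
    · exact Or.inl (Finset.Subset.refl _)
    · exact h2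
    · exact h3.symm
    · exact h2.symm
    · exact Or.inl (Finset.Subset.refl _)

def opts (k : ℕ) : List (Option (Fin 29)) :=
  none :: ((List.finRange 29).filter (fun i => (vf i).card == k)).map some

def o2ok (o o' : Option (Fin 29)) : Bool := o.all (fun a => o'.all (fun b => adj a b))

def extOK : Bool :=
  (opts 1).all (fun o1 => (opts 2).all (fun o2 => !(o2ok o1 o2) || (opts 3).all (fun o3 =>
    !(o2ok o1 o3) || !(o2ok o2 o3) || L0.any (fun t =>
      o1.all (fun a => t.1 == a) && o2.all (fun b => t.2.1 == b) && o3.all (fun c => t.2.2.1 == c)))))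

theorem extOK_true : extOK = true := by decide +kernel

theorem mem_opts {k : ℕ} {o : Option (Fin 29)} (h : ∀ a ∈ o, (vf a).card = k) : o ∈ opts k := by
  cases o with
  | none => simp [opts]
  | some a =>
    have := h a rfl
    simp [opts, this]

theorem o2ok_of {o o' : Option (Fin 29)} (h : ∀ a ∈ o, ∀ b ∈ o', cmq a b) : o2ok o o' = true := by
  cases o with
  | none => simp [o2ok]
  | some a =>
    cases o' with
    | none => simp [o2ok]
    | some b => simpa [o2ok] using (cmq_iff a b).mp (h a rfl b rfl)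

theorem L_ext (o1 : Option (Fin 29)) (h1 : ∀ a ∈ o1, (vf a).card = 1)
    (o2 : Option (Fin 29)) (h2 : ∀ b ∈ o2, (vf b).card = 2) (h12 : ∀ a ∈ o1, ∀ b ∈ o2, cmq a b)
    (o3 : Option (Fin 29)) (h3 : ∀ c ∈ o3, (vf c).card = 3) (h13 : ∀ a ∈ o1, ∀ c ∈ o3, cmq a c)
    (h23 : ∀ b ∈ o2, ∀ c ∈ o3, cmq b c) :
    ∃ p ∈ L, (∀ a ∈ o1, a ∈ p.1) ∧ (∀ b ∈ o2, b ∈ p.1) ∧ (∀ c ∈ o3, c ∈ p.1) := by
  have h := extOK_true
  rw [extOK, List.all_eq_true] at h
  have h := h o1 (mem_opts h1)
  rw [List.all_eq_true] at h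
  have h := h o2 (mem_opts h2)
  rw [o2ok_of h12, Bool.not_true, Bool.false_or, List.all_eq_true] at h
  have h := h o3 (mem_opts h3)
  rw [o2ok_of h13, o2ok_of h23, Bool.not_true, Bool.false_or, Bool.false_or, List.any_eq_true] at h
  obtain ⟨t, ht, hc⟩ := h
  rw [Bool.and_eq_true, Bool.and_eq_true] at hc
  obtain ⟨⟨c1, c2⟩, c3⟩ := hc
  refine ⟨_, List.mem_map_of_mem ht, ?_, ?_, ?_⟩
  · rintro a ha
    rw [Option.mem_def] at ha
    subst ha
    have : t.1 = a := by simpa using c1
    simp [this]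
  · rintro a ha
    rw [Option.mem_def] at ha
    subst ha
    have : t.2.1 = a := by simpa using c2
    simp [this]
  · rintro a ha
    rw [Option.mem_def] at ha
    subst ha
    have : t.2.2.1 = a := by simpa using c3
    simp [this]

theorem vf_card : ∀ i, (vf i).card = 1 ∨ (vf i).card = 2 ∨ (vf i).card = 3 := by decide +kernel

/-- the index set of degree 2 monomials supported on faces -/
abbrev E2 := {p : Fin 29 × Fin 29 // p.1 ≤ p.2 ∧ cmq p.1 p.2}

theorem card_E2 : Fintype.card E2 = 119 := by decide +kernel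

/-- the equivalence between indices and vertices of the subdivision -/
noncomputable def vt : Fin 29 ≃ Gam.faces :=
  Equiv.ofBijective (fun i => ⟨vf i, vf_mem i⟩)
    ⟨fun i j h => vf_inj i j (congrArg Subtype.val h),
     fun s => by
      obtain ⟨i, hi⟩ := vf_surj s.1 s.2
      exact ⟨i, Subtype.ext hi⟩⟩

theorem vt_val (i : Fin 29) : (vt i : Finset (Fin 6)) = vf i := rfl

theorem isShelling_map {α β : Type*} [DecidableEq α] [DecidableEq β] (e : α ↪ β) :
    ∀ l : List (Finset α × Finset α), IsShelling l →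
      IsShelling (l.map (fun p => (p.1.map e, p.2.map e))) := by
  intro l
  induction l with
  | nil => intro _; trivial
  | cons p l ih =>
    rintro ⟨⟨h1, h2, h3⟩, h4⟩
    refine ⟨⟨?_, ?_, ?_⟩, ih h4⟩
    · exact Finset.map_subset_map.mpr h1
    · intro E hE
      simp only [List.map_map, List.mem_map, Function.comp] at hE
      obtain ⟨q, hq, rfl⟩ := hE
      intro hs
      exact h2 q.1 (List.mem_map_of_mem hq) (Finset.map_subset_map.mp hs)
    · intro v hv
      obtain ⟨w, hw, rfl⟩ := Finset.mem_map.mp hv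
      obtain ⟨E, hE, hs⟩ := h3 w hw
      obtain ⟨q, hq, rfl⟩ := List.mem_map.mp hE
      refine ⟨q.1.map e, ?_, ?_⟩
      · simp only [List.map_map, List.mem_map, Function.comp]
        exact ⟨q, hq, rfl⟩
      · show (p.1.map e).erase (e w) ⊆ _
        rw [← Finset.map_erase]
        exact Finset.map_subset_map.mpr hs

noncomputable def LV : List (Finset Gam.faces × Finset Gam.faces) :=
  L.map (fun p => (p.1.map vt.toEmbedding, p.2.map vt.toEmbedding))

end Concrete


section WLP
variable {σ : Type*} {K : Type*} [Field K]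

variable [Fintype σ] [DecidableEq σ]

/-- the linear form with given coefficients -/
noncomputable def linF (c : σ → K) : MvPolynomial σ K := ∑ v, C (c v) * X v

theorem linF_homog (c : σ → K) : (linF c).IsHomogeneous 1 := by
  refine IsHomogeneous.sum _ _ _ (fun v _ => ?_)
  simpa using (isHomogeneous_C σ (c v)).mul (isHomogeneous_X K v)

theorem coeff_linF (c : σ → K) (v : σ) : coeff (Finsupp.single v 1) (linF c) = c v := by
  rw [linF, coeff_sum, Finset.sum_eq_single v]
  · simp
  · intro w _ hw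
    rw [coeff_C_mul, coeff_X, if_neg, mul_zero]
    intro h
    exact hw ((Finsupp.single_left_inj one_ne_zero).mp h)
  · simp

/-- a degree two coefficient of `h * Θ`, `Θ` linear, depends only on the linear part of `h` -/
theorem coeff_mul_linear (Θ h : MvPolynomial σ K) (hΘ : Θ.IsHomogeneous 1) (u w : σ) :
    coeff (Finsupp.single u 1 + Finsupp.single w 1) (h * Θ) =
      coeff (Finsupp.single u 1 + Finsupp.single w 1) (linF (lc h) * Θ) := by
  rw [coeff_mul, coeff_mul]
  refine Finset.sum_congr rfl (fun x hx => ?_)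
  by_cases h2 : coeff x.2 Θ = 0
  · rw [h2, mul_zero, mul_zero]
  · have hd := hΘ h2
    rw [Finsupp.weight_apply] at hd
    simp only [Pi.one_apply, smul_eq_mul, mul_one] at hd
    obtain ⟨b, hb⟩ := (Finsupp.sum_eq_one_iff x.2).mp hd
    have hx := Finset.HasAntidiagonal.mem_antidiagonal.mp hx
    have h3 : ∃ a, x.1 = Finsupp.single a 1 := by
      rw [← Finsupp.sum_eq_one_iff]
      have h4 : (x.1 + x.2).sum (fun _ n => n) = 2 := by
        rw [hx, Finsupp.sum_add_index' (fun _ => rfl) (fun _ _ _ => rfl)]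
        simp
      rw [Finsupp.sum_add_index' (fun _ => rfl) (fun _ _ _ => rfl), hb] at h4
      simp at h4
      omega
    obtain ⟨a, ha⟩ := h3
    rw [ha, coeff_linF]
    rfl

end WLP


section NonSurj
variable {K : Type*} [Field K]

theorem single_pair_ne {a b c d : Fin 29} (hab : a ≤ b) (hcd : c ≤ d)
    (h : (Finsupp.single (vt a) 1 + Finsupp.single (vt b) 1 : Gam.faces →₀ ℕ) =
      Finsupp.single (vt c) 1 + Finsupp.single (vt d) 1) : a = c ∧ b = d := by
  rw [Finsupp.single_add_single_eq_single_add_single one_ne_zero one_ne_zero] at h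
  rcases h with ⟨h1, h2⟩ | ⟨_, h1, h2⟩ | ⟨h1, _⟩
  · exact ⟨vt.injective h1, vt.injective h2⟩
  · have h1' := vt.injective h1
    have h2' := vt.injective h2
    subst h1'; subst h2'
    have := le_antisymm hab hcd
    exact ⟨this, this.symm⟩
  · omega

/-- coefficient map -/
noncomputable def T : MvPolynomial Gam.faces K →ₗ[K] (E2 → K) where
  toFun f := fun p => coeff (Finsupp.single (vt p.1.1) 1 + Finsupp.single (vt p.1.2) 1) f
  map_add' := by intro f g; ext p; simp
  map_smul' := by intro c f; ext p; simp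

theorem T_apply (f : MvPolynomial Gam.faces K) (p : E2) :
    T f p = coeff (Finsupp.single (vt p.1.1) 1 + Finsupp.single (vt p.1.2) 1) f := rfl

theorem T_srIdeal {f : MvPolynomial Gam.faces K} (hf : f ∈ srIdeal K (sd Gam)) : T f = 0 := by
  ext p
  rw [T_apply]
  by_contra hne
  obtain ⟨h1, h2⟩ := mem_srIdeal.mp hf _ (mem_support_iff.mpr hne)
  apply h2
  refine ⟨h1, ?_⟩
  have hsub : (Finsupp.single (vt p.1.1) 1 + Finsupp.single (vt p.1.2) 1 :
      Gam.faces →₀ ℕ).support ⊆ {vt p.1.1, vt p.1.2} := by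
    refine Finsupp.support_add.trans ?_
    refine Finset.union_subset ?_ ?_
    · exact Finsupp.support_single_subset.trans (by simp)
    · exact Finsupp.support_single_subset.trans (by simp)
  have hc : cmq p.1.1 p.1.2 := p.2.2
  intro a ha b hb
  have ha' := hsub ha
  have hb' := hsub hb
  simp only [Finset.mem_insert, Finset.mem_singleton] at ha' hb'
  rcases ha' with rfl | rfl <;> rcases hb' with rfl | rfl
  · exact Or.inl (Finset.Subset.refl _)
  · exact hc
  · exact hc.symm
  · exact Or.inl (Finset.Subset.refl _)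

theorem T_mul_linear (Θ h : MvPolynomial Gam.faces K) (hΘ : Θ.IsHomogeneous 1) :
    T (h * Θ) = T (linF (lc h) * Θ) := by
  ext p
  exact coeff_mul_linear Θ h hΘ _ _

theorem not_surj (Θ : Fin 3 → MvPolynomial Gam.faces K) (hΘ : ∀ i, (Θ i).IsHomogeneous 1)
    (ℓ : MvPolynomial Gam.faces K) (hℓ : ℓ.IsHomogeneous 1)
    (hs : ∀ b : MvPolynomial Gam.faces K, b.IsHomogeneous 2 → ∃ a : MvPolynomial Gam.faces K,
      ℓ * a - b ∈ srIdeal K (sd Gam) ⊔ Ideal.span (Set.range Θ)) : False := by
  let Ψ : ((Fin 4 × Gam.faces) → K) →ₗ[K] (E2 → K) :=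
    { toFun := fun c => T (linF (fun v => c (0, v)) * ℓ + ∑ i : Fin 3, linF (fun v => c (i.succ, v)) * Θ i)
      map_add' := by
        intro c c'
        refine Eq.trans (congrArg T ?_) (map_add T _ _)
        have : ∀ j : Fin 4, linF (fun v => (c + c') (j, v)) =
            linF (K := K) (fun v => c (j, v)) + linF (fun v => c' (j, v)) := by
          intro j
          simp only [linF, Pi.add_apply, C_add, add_mul, Finset.sum_add_distrib]
        simp only [this, add_mul, Finset.sum_add_distrib]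
        exact add_add_add_comm _ _ _ _
      map_smul' := by
        intro t c
        rw [RingHom.id_apply]
        refine Eq.trans (congrArg T ?_) (map_smul T t _)
        have : ∀ j : Fin 4, linF (fun v => (t • c) (j, v)) =
            t • linF (K := K) (fun v => c (j, v)) := by
          intro j
          simp only [linF, Pi.smul_apply, smul_eq_mul, C_mul, mul_assoc, Finset.smul_sum,
            smul_eq_C_mul]
        simp only [this, smul_add, Finset.smul_sum, smul_mul_assoc] }
  have hsurj : Function.Surjective Ψ := by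
    intro e
    let b : MvPolynomial Gam.faces K := ∑ p : E2, C (e p) * (X (vt p.1.1) * X (vt p.1.2))
    have hb : b.IsHomogeneous 2 := by
      refine IsHomogeneous.sum _ _ _ (fun p _ => ?_)
      simpa using (isHomogeneous_C _ (e p)).mul
        ((isHomogeneous_X K (vt p.1.1)).mul (isHomogeneous_X K (vt p.1.2)))
    have hTb : T b = e := by
      ext p
      rw [T_apply]
      simp only [b, coeff_sum, coeff_C_mul]
      rw [Finset.sum_eq_single p]
      · have : (X (vt p.1.1) * X (vt p.1.2) : MvPolynomial Gam.faces K) =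
            monomial (Finsupp.single (vt p.1.1) 1 + Finsupp.single (vt p.1.2) 1) 1 := by
          rw [X, X, monomial_mul, one_mul]
        rw [this, coeff_monomial, if_pos rfl, mul_one]
      · intro q _ hq
        have : (X (vt q.1.1) * X (vt q.1.2) : MvPolynomial Gam.faces K) =
            monomial (Finsupp.single (vt q.1.1) 1 + Finsupp.single (vt q.1.2) 1) 1 := by
          rw [X, X, monomial_mul, one_mul]
        rw [this, coeff_monomial, if_neg, mul_zero]
        intro h
        obtain ⟨h1, h2⟩ := single_pair_ne q.2.1 p.2.1 h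
        exact hq (Subtype.ext (Prod.ext h1 h2))
      · simp
    obtain ⟨a, ha⟩ := hs b hb
    obtain ⟨i, hi, g, hg, hig⟩ := Submodule.mem_sup.mp ha
    obtain ⟨h, rfl⟩ := (Ideal.mem_span_range_iff_exists_fun).mp hg
    refine ⟨fun q => Fin.cases (lc a q.2) (fun j => - lc (h j) q.2) q.1, ?_⟩
    have h1 : T (linF (lc a) * ℓ) = T (ℓ * a) := by
      rw [← T_mul_linear ℓ a hℓ, mul_comm]
    have h2 : ∀ j, T (linF (fun v => - lc (h j) v) * Θ j) = - T (h j * Θ j) := by
      intro j
      rw [T_mul_linear (Θ j) (h j) (hΘ j), ← map_neg]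
      congr 1
      simp only [linF, C_neg, neg_mul, Finset.sum_neg_distrib]
    show T (linF (lc a) * ℓ + ∑ j : Fin 3, linF (fun v => - lc (h j) v) * Θ j) = e
    rw [map_add, map_sum, h1]
    simp only [h2]
    have h3 : ℓ * a = b + i + ∑ j, h j * Θ j := by
      rw [eq_add_of_sub_eq hig.symm]
      ring
    rw [h3, map_add, map_add, hTb, T_srIdeal hi, map_sum, Finset.sum_neg_distrib]
    simp
  have := LinearMap.finrank_le_finrank_of_surjective hsurj
  have hV : Fintype.card Gam.faces = 29 := by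
    rw [← Fintype.card_congr vt, Fintype.card_fin]
  rw [Module.finrank_fintype_fun_eq_card, Module.finrank_fintype_fun_eq_card, card_E2,
    Fintype.card_prod, hV, Fintype.card_fin] at this
  omega

end NonSurj


section NonInj
variable {K : Type*} [Field K]

theorem row_indep {σ : Type*} [Fintype σ] [DecidableEq σ] {Δ : AbstractSimplicialComplex σ}
    {d : ℕ} {Θ : Fin d → MvPolynomial σ K} (h : IsLSOP K Δ Θ) {F : Finset σ} (hF : F ∈ Δ.faces)
    (hc : F.card = d) (t : Fin d → K) (ht : ∀ v ∈ F, ∑ i, t i * lc (Θ i) v = 0) : t = 0 := by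
  obtain ⟨B, hB0, hB1, _⟩ := facet_inverse Θ F hc (fun p hp hp2 => lsop_independent h hF p hp hp2)
  ext j
  have h1 : ∑ v, B v j * ∑ i, t i * lc (Θ i) v = t j := by
    simp only [Finset.mul_sum]
    rw [Finset.sum_comm]
    have : ∀ i, ∑ v, B v j * (t i * lc (Θ i) v) = t i * (if i = j then 1 else 0) := by
      intro i
      rw [← hB1 i j, Finset.mul_sum]
      exact Finset.sum_congr rfl (fun v _ => by ring)
    simp only [this]
    simp
  rw [← h1]
  refine Finset.sum_eq_zero (fun v _ => ?_)
  by_cases hv : v ∈ F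
  · rw [ht v hv, mul_zero]
  · rw [hB0 v hv j, zero_mul]

theorem coeff_single_mul_linear {σ : Type*} [Fintype σ] [DecidableEq σ]
    (h Θ : MvPolynomial σ K) (hΘ : Θ.IsHomogeneous 1) (v : σ) :
    coeff (Finsupp.single v 1) (h * Θ) = coeff 0 h * lc Θ v := by
  conv_lhs => rw [lin_eq hΘ]
  rw [Finset.mul_sum, coeff_sum, Finset.sum_eq_single v]
  · rw [show h * (C (coeff (Finsupp.single v 1) Θ) * X v) =
      C (coeff (Finsupp.single v 1) Θ) * (h * X v) by ring, coeff_C_mul, coeff_mul_X']
    simp [lc, mul_comm]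
  · intro w _ hw
    rw [show h * (C (coeff (Finsupp.single w 1) Θ) * X w) =
      C (coeff (Finsupp.single w 1) Θ) * (h * X w) by ring, coeff_C_mul, coeff_mul_X', if_neg,
      mul_zero]
    intro hmem
    apply hw
    have := Finsupp.support_single_subset hmem
    simpa using this
  · simp

theorem pair_mem {a b : Fin 29} (h : ¬ cmq a b) :
    (X (vt a) * X (vt b) : MvPolynomial Gam.faces K) ∈ srIdeal K (sd Gam) := by
  have hne : vt a ≠ vt b := by
    intro hab
    apply h
    have := vt.injective hab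
    subst this
    exact Or.inl (Finset.Subset.refl _)
  refine Ideal.subset_span ⟨{vt a, vt b}, by simp, ?_, ?_⟩
  · rintro ⟨_, hc⟩
    exact h (hc (vt a) (by simp) (vt b) (by simp))
  · rw [Finset.prod_pair hne]

theorem nb10 : ∀ i : Fin 29, i ≠ 10 → i ≠ 0 → i ≠ 5 → i ≠ 21 → ¬ cmq i 10 := by decide +kernel
theorem nb5 : ∀ i : Fin 29, i ≠ 5 → i ≠ 10 → i ≠ 14 → i ≠ 21 → ¬ cmq i 5 := by decide +kernel

/-- evaluation of a combination of linear forms -/
theorem rel_mem (A B : Gam.faces → K) (h1 : A (vt 10) = 0) (h2 : A (vt 0) = 0)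
    (h3 : A (vt 21) = 0) (h4 : A (vt 5) + B (vt 10) = 0) (h5 : B (vt 5) = 0)
    (h6 : B (vt 14) = 0) (h7 : B (vt 21) = 0) :
    linF A * X (vt 10) + linF B * X (vt 5) ∈ srIdeal K (sd Gam) := by
  have e1 : linF A * X (vt 10) = C (A (vt 5)) * X (vt 5) * X (vt 10) +
      ∑ w ∈ Finset.univ.erase (vt 5), C (A w) * X w * X (vt 10) := by
    rw [linF, Finset.sum_mul]
    exact (Finset.add_sum_erase _ (fun w => C (A w) * X w * X (vt 10))
      (Finset.mem_univ (vt 5))).symm
  have e2 : linF B * X (vt 5) = C (B (vt 10)) * X (vt 10) * X (vt 5) +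
      ∑ w ∈ Finset.univ.erase (vt 10), C (B w) * X w * X (vt 5) := by
    rw [linF, Finset.sum_mul]
    exact (Finset.add_sum_erase _ (fun w => C (B w) * X w * X (vt 5))
      (Finset.mem_univ (vt 10))).symm
  have e3 : linF A * X (vt 10) + linF B * X (vt 5) =
      (∑ w ∈ Finset.univ.erase (vt 5), C (A w) * X w * X (vt 10)) +
      ∑ w ∈ Finset.univ.erase (vt 10), C (B w) * X w * X (vt 5) := by
    have : (C (A (vt 5)) * X (vt 5) * X (vt 10) + C (B (vt 10)) * X (vt 10) * X (vt 5) :
        MvPolynomial Gam.faces K) = 0 := by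
      have : (C (A (vt 5)) * X (vt 5) * X (vt 10) + C (B (vt 10)) * X (vt 10) * X (vt 5) :
        MvPolynomial Gam.faces K) = C (A (vt 5) + B (vt 10)) * X (vt 5) * X (vt 10) := by
        rw [C_add]; ring
      rw [this, h4]; simp
    rw [e1, e2]
    linear_combination this
  rw [e3]
  refine Submodule.add_mem _ (Ideal.sum_mem _ (fun w hw => ?_)) (Ideal.sum_mem _ (fun w hw => ?_))
  · have hw := Finset.ne_of_mem_erase hw
    obtain ⟨i, rfl⟩ := vt.surjective w
    rw [mul_assoc]
    by_cases c1 : i = 10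
    · subst c1; rw [h1]; simp
    by_cases c2 : i = 0
    · subst c2; rw [h2]; simp
    by_cases c3 : i = 21
    · subst c3; rw [h3]; simp
    refine Ideal.mul_mem_left _ _ (pair_mem (nb10 i c1 c2 (fun h => hw (h ▸ rfl)) c3))
  · have hw := Finset.ne_of_mem_erase hw
    obtain ⟨i, rfl⟩ := vt.surjective w
    rw [mul_assoc]
    by_cases c1 : i = 5
    · subst c1; rw [h5]; simp
    by_cases c2 : i = 14
    · subst c2; rw [h6]; simp
    by_cases c3 : i = 21
    · subst c3; rw [h7]; simp
    refine Ideal.mul_mem_left _ _ (pair_mem (nb5 i c1 (fun h => hw (h ▸ rfl)) c2 c3))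

theorem face3 {a b c : Fin 29} (h : cmq a b ∧ cmq b c ∧ cmq a c ∧ a ≠ b ∧ b ≠ c ∧ a ≠ c) :
    ({vt a, vt b, vt c} : Finset Gam.faces) ∈ (sd Gam).faces ∧
      ({vt a, vt b, vt c} : Finset Gam.faces).card = 3 := by
  obtain ⟨h1, h2, h3, h4, h5, h6⟩ := h
  constructor
  · refine ⟨by simp, ?_⟩
    intro x hx y hy
    simp only [Finset.mem_insert, Finset.mem_singleton] at hx hy
    rcases hx with rfl | rfl | rfl <;> rcases hy with rfl | rfl | rfl
    · exact Or.inl (Finset.Subset.refl _)
    · exact h1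
    · exact h3
    · exact h1.symm
    · exact Or.inl (Finset.Subset.refl _)
    · exact h2
    · exact h3.symm
    · exact h2.symm
    · exact Or.inl (Finset.Subset.refl _)
  · rw [Finset.card_eq_three]
    exact ⟨_, _, _, fun h => h4 (vt.injective h), fun h => h6 (vt.injective h),
      fun h => h5 (vt.injective h), rfl⟩

theorem exists_rel (e v0 c v5 e15 : Fin 4 → K) : ∃ x : Fin 2 × Fin 4 → K, x ≠ 0 ∧
    ∑ a, x (0, a) * e a = 0 ∧ ∑ a, x (0, a) * v0 a = 0 ∧ ∑ a, x (0, a) * c a = 0 ∧
    ∑ a, x (0, a) * v5 a + ∑ a, x (1, a) * e a = 0 ∧ ∑ a, x (1, a) * v5 a = 0 ∧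
    ∑ a, x (1, a) * e15 a = 0 ∧ ∑ a, x (1, a) * c a = 0 := by
  let lf : (Fin 2) → (Fin 4 → K) → ((Fin 2 × Fin 4 → K) →ₗ[K] K) := fun k u =>
    ∑ a, (u a) • LinearMap.proj (k, a)
  have hlf : ∀ k u x, lf k u x = ∑ a, x (k, a) * u a := by
    intro k u x
    simp only [lf, LinearMap.sum_apply, LinearMap.smul_apply, LinearMap.proj_apply, smul_eq_mul,
      mul_comm]
  let M : (Fin 2 × Fin 4 → K) →ₗ[K] (Fin 7 → K) :=
    LinearMap.pi ![lf 0 e, lf 0 v0, lf 0 c, lf 0 v5 + lf 1 e, lf 1 v5, lf 1 e15, lf 1 c]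
  have hker : LinearMap.ker M ≠ ⊥ := by
    apply LinearMap.ker_ne_bot_of_finrank_lt
    simp
  obtain ⟨x, hx, hx0⟩ := Submodule.exists_mem_ne_zero_of_ne_bot hker
  rw [LinearMap.mem_ker] at hx
  have q : ∀ i, M x i = 0 := fun i => congrFun hx i
  refine ⟨x, hx0, ?_, ?_, ?_, ?_, ?_, ?_, ?_⟩
  · rw [← hlf]; exact q 0
  · rw [← hlf]; exact q 1
  · rw [← hlf]; exact q 2
  · rw [← hlf, ← hlf]; exact q 3
  · rw [← hlf]; exact q 4
  · rw [← hlf]; exact q 5
  · rw [← hlf]; exact q 6

theorem lin_comb_eq (Λ : Fin 4 → MvPolynomial Gam.faces K) (hΛ : ∀ a, (Λ a).IsHomogeneous 1)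
    (x : Fin 4 → K) : linF (fun v => ∑ a, x a * lc (Λ a) v) = ∑ a, C (x a) * Λ a := by
  simp only [linF, map_sum, Finset.sum_mul]
  rw [Finset.sum_comm]
  refine Finset.sum_congr rfl (fun a _ => ?_)
  conv_rhs => rw [lin_eq (hΛ a)]
  rw [Finset.mul_sum]
  refine Finset.sum_congr rfl (fun v _ => ?_)
  rw [C_mul, mul_assoc]
  rfl

theorem rel_mem' (Λ : Fin 4 → MvPolynomial Gam.faces K) (hΛ : ∀ a, (Λ a).IsHomogeneous 1)
    (x : Fin 2 × Fin 4 → K)
    (q0 : ∑ a, x (0, a) * lc (Λ a) (vt 10) = 0) (q1 : ∑ a, x (0, a) * lc (Λ a) (vt 0) = 0)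
    (q2 : ∑ a, x (0, a) * lc (Λ a) (vt 21) = 0)
    (q3 : ∑ a, x (0, a) * lc (Λ a) (vt 5) + ∑ a, x (1, a) * lc (Λ a) (vt 10) = 0)
    (q4 : ∑ a, x (1, a) * lc (Λ a) (vt 5) = 0)
    (q5 : ∑ a, x (1, a) * lc (Λ a) (vt 14) = 0)
    (q6 : ∑ a, x (1, a) * lc (Λ a) (vt 21) = 0) :
    ∑ a, Λ a * (C (x (0, a)) * X (vt 10) + C (x (1, a)) * X (vt 5)) ∈ srIdeal K (sd Gam) := by
  have h1 := rel_mem (K := K) (fun v => ∑ a, x (0, a) * lc (Λ a) v)
    (fun v => ∑ a, x (1, a) * lc (Λ a) v) q0 q1 q2 q3 q4 q5 q6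
  rw [lin_comb_eq Λ hΛ (fun a => x (0, a)), lin_comb_eq Λ hΛ (fun a => x (1, a)),
    Finset.sum_mul, Finset.sum_mul, ← Finset.sum_add_distrib] at h1
  have h2 : ∑ a, Λ a * (C (x (0, a)) * X (vt 10) + C (x (1, a)) * X (vt 5)) =
      ∑ a, (C (x (0, a)) * Λ a * X (vt 10) + C (x (1, a)) * Λ a * X (vt 5)) :=
    Finset.sum_congr rfl (fun a _ => by ring)
  rw [h2]
  exact h1

theorem not_inj {Θ : Fin 3 → MvPolynomial Gam.faces K} (hΘ : IsLSOP K (sd Gam) Θ)
    (ℓ : MvPolynomial Gam.faces K) (hℓ : ℓ.IsHomogeneous 1) :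
    ∃ y : MvPolynomial Gam.faces K, y.IsHomogeneous 1 ∧
      ℓ * y ∈ srIdeal K (sd Gam) ⊔ Ideal.span (Set.range Θ) ∧
      y ∉ srIdeal K (sd Gam) ⊔ Ideal.span (Set.range Θ) := by
  let Λ : Fin 4 → MvPolynomial Gam.faces K := Fin.cons ℓ Θ
  have hΛ : ∀ a, (Λ a).IsHomogeneous 1 := by
    intro a
    refine Fin.cases ?_ ?_ a
    · exact hℓ
    · exact hΘ.linear
  obtain ⟨x, hx0, q0, q1, q2, q3, q4, q5, q6⟩ := exists_rel (fun a => lc (Λ a) (vt 10))
    (fun a => lc (Λ a) (vt 0)) (fun a => lc (Λ a) (vt 21)) (fun a => lc (Λ a) (vt 5))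
    (fun a => lc (Λ a) (vt 14))
  let Y : Fin 4 → MvPolynomial Gam.faces K := fun a =>
    C (x (0, a)) * X (vt 10) + C (x (1, a)) * X (vt 5)
  have hrel : ∑ a, Λ a * Y a ∈ srIdeal K (sd Gam) := rel_mem' Λ hΛ x q0 q1 q2 q3 q4 q5 q6
  have f1 := face3 (a := 0) (b := 10) (c := 21) (by decide)
  have f2 := face3 (a := 5) (b := 10) (c := 21) (by decide)
  have f3 := face3 (a := 5) (b := 14) (c := 21) (by decide)
  have f4 := face3 (a := 2) (b := 15) (c := 25) (by decide)
  refine ⟨Y 0, ?_, ?_, ?_⟩
  · refine IsHomogeneous.add ?_ ?_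
    · simpa using (isHomogeneous_C _ (x (0, 0))).mul (isHomogeneous_X K (vt 10))
    · simpa using (isHomogeneous_C _ (x (1, 0))).mul (isHomogeneous_X K (vt 5))
  · rw [Fin.sum_univ_succ] at hrel
    have e : ℓ * Y 0 = (Λ 0 * Y 0 + ∑ i : Fin 3, Λ i.succ * Y i.succ) -
        ∑ i : Fin 3, Θ i * Y i.succ := by
      have : Λ 0 = ℓ := rfl
      have h' : ∀ i : Fin 3, Λ i.succ = Θ i := fun i => rfl
      simp only [this, h']
      ring
    rw [e]
    refine Submodule.sub_mem _ (Ideal.mem_sup_left hrel) (Ideal.mem_sup_right ?_)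
    refine Ideal.sum_mem _ (fun i _ => ?_)
    exact Ideal.mul_mem_right _ _ (Ideal.subset_span ⟨i, rfl⟩)
  · intro hmem
    obtain ⟨g, hg, g', hg', hgg⟩ := Submodule.mem_sup.mp hmem
    obtain ⟨h, rfl⟩ := (Ideal.mem_span_range_iff_exists_fun).mp hg'
    have hco : ∀ v : Gam.faces, coeff (Finsupp.single v 1) (Y 0) =
        ∑ i, coeff 0 (h i) * lc (Θ i) v := by
      intro v
      rw [← hgg, coeff_add, coeff_sum]
      have h1 : coeff (Finsupp.single v 1) g = 0 := by
        by_contra hne
        obtain ⟨_, h2⟩ := mem_srIdeal.mp hg _ (mem_support_iff.mpr hne)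
        apply h2
        rw [Finsupp.support_single_ne_zero _ one_ne_zero]
        exact (sd Gam).singleton_mem v
      rw [h1, zero_add]
      exact Finset.sum_congr rfl (fun i _ => coeff_single_mul_linear _ _ (hΘ.linear i) v)
    have hY : ∀ v : Gam.faces, coeff (Finsupp.single v 1) (Y 0) =
        (if v = vt 10 then x (0, 0) else 0) + (if v = vt 5 then x (1, 0) else 0) := by
      intro v
      simp only [Y, coeff_add, coeff_C_mul, coeff_X, Finsupp.single_left_inj one_ne_zero]
      simp only [mul_ite, mul_one, mul_zero, eq_comm (a := v)]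
    have ht : (fun i => coeff 0 (h i)) = 0 := by
      refine row_indep hΘ f4.1 f4.2 _ (fun v hv => ?_)
      rw [← hco v, hY v]
      simp only [Finset.mem_insert, Finset.mem_singleton] at hv
      have n1 : v ≠ vt 10 := by
        rcases hv with rfl | rfl | rfl <;>
        · intro h; have := vt.injective h; revert this; decide
      have n2 : v ≠ vt 5 := by
        rcases hv with rfl | rfl | rfl <;>
        · intro h; have := vt.injective h; revert this; decide
      rw [if_neg n1, if_neg n2, add_zero]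
    have hz : ∀ v : Gam.faces, (if v = vt 10 then x (0, 0) else 0) +
        (if v = vt 5 then x (1, 0) else 0) = 0 := by
      intro v
      rw [← hY v, hco v]
      refine Finset.sum_eq_zero (fun i _ => ?_)
      have := congrFun ht i
      simp only [Pi.zero_apply] at this
      rw [this, zero_mul]
    have n : vt 10 ≠ vt 5 := by
      intro h; have := vt.injective h; revert this; decide
    have x00 : x (0, 0) = 0 := by
      have := hz (vt 10)
      rwa [if_pos rfl, if_neg n, add_zero] at this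
    have x10 : x (1, 0) = 0 := by
      have := hz (vt 5)
      rwa [if_neg n.symm, if_pos rfl, zero_add] at this
    have hs : ∀ (k : Fin 2) (v : Gam.faces), x (k, 0) = 0 →
        ∑ a, x (k, a) * lc (Λ a) v = ∑ i : Fin 3, x (k, i.succ) * lc (Θ i) v := by
      intro k v hk
      rw [Fin.sum_univ_succ, hk, zero_mul, zero_add]
      rfl
    have t0 : (fun i : Fin 3 => x (0, i.succ)) = 0 := by
      refine row_indep hΘ f1.1 f1.2 _ (fun v hv => ?_)
      rw [← hs 0 v x00]
      simp only [Finset.mem_insert, Finset.mem_singleton] at hv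
      rcases hv with rfl | rfl | rfl
      · exact q1
      · exact q0
      · exact q2
    have x0 : ∀ a, x (0, a) = 0 := by
      intro a
      refine Fin.cases x00 (fun i => congrFun t0 i) a
    have q3' : ∑ a, x (1, a) * lc (Λ a) (vt 10) = 0 := by
      simpa [x0] using q3
    have t1 : (fun i : Fin 3 => x (1, i.succ)) = 0 := by
      refine row_indep hΘ f2.1 f2.2 _ (fun v hv => ?_)
      rw [← hs 1 v x10]
      simp only [Finset.mem_insert, Finset.mem_singleton] at hv
      rcases hv with rfl | rfl | rfl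
      · exact q4
      · exact q3'
      · exact q6
    have x1 : ∀ a, x (1, a) = 0 := by
      intro a
      refine Fin.cases x10 (fun i => congrFun t1 i) a
    apply hx0
    ext ⟨k, a⟩
    fin_cases k
    · exact x0 a
    · exact x1 a

theorem not_wlp {Θ : Fin 3 → MvPolynomial Gam.faces K} (hΘ : IsLSOP K (sd Gam) Θ) :
    ¬ HasWLP (srIdeal K (sd Gam) ⊔ Ideal.span (Set.range Θ)) := by
  rintro ⟨_, ⟨ℓ, hℓ, rfl⟩, hall⟩
  have hℓ' : ℓ.IsHomogeneous 1 := (mem_homogeneousSubmodule 1 ℓ).mp hℓ
  rcases hall 1 with hinj | hsurj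
  · obtain ⟨y, hy1, hy2, hy3⟩ := not_inj hΘ ℓ hℓ'
    apply hy3
    rw [← Ideal.Quotient.eq_zero_iff_mem]
    refine hinj _ ⟨y, (mem_homogeneousSubmodule 1 y).mpr hy1, rfl⟩ ?_
    rw [← Ideal.Quotient.eq_zero_iff_mem, map_mul] at hy2
    exact hy2
  · refine not_surj Θ hΘ.linear ℓ hℓ' (fun b hb => ?_)
    obtain ⟨_, ⟨a, _, rfl⟩, ha⟩ := hsurj (Ideal.Quotient.mk _ b)
      ⟨b, (mem_homogeneousSubmodule 2 b).mpr hb, rfl⟩
    refine ⟨a, ?_⟩
    rw [← Ideal.Quotient.eq, map_mul]
    exact ha

end NonInj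

section CM
variable {K : Type*} [Field K]

theorem chain_iff (s : Finset Gam.faces) :
    (∀ a ∈ s, ∀ b ∈ s, (a : Finset (Fin 6)) ⊆ b ∨ (b : Finset (Fin 6)) ⊆ a) ↔
      ∃ F ∈ LV.map Prod.fst, s ⊆ F := by
  constructor
  · intro hs
    have hex : ∀ k : ℕ, ∃ o : Option (Fin 29), (∀ a ∈ o, (vf a).card = k ∧ vt a ∈ s) ∧
        (∀ a, (vf a).card = k → vt a ∈ s → a ∈ o) := by
      intro k
      by_cases h : ∃ a, (vf a).card = k ∧ vt a ∈ s
      · obtain ⟨a, h1, h2⟩ := h
        refine ⟨some a, ?_, ?_⟩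
        · intro b hb
          rw [Option.mem_some_iff] at hb
          subst hb
          exact ⟨h1, h2⟩
        · intro b h1' h2'
          rw [Option.mem_some_iff]
          rcases hs _ h2 _ h2' with h | h
          · exact vf_inj _ _ (Finset.eq_of_subset_of_card_le h (h1'.trans h1.symm).le)
          · exact (vf_inj _ _ (Finset.eq_of_subset_of_card_le h (h1.trans h1'.symm).le)).symm
      · refine ⟨none, by simp, fun a h1 h2 => absurd ⟨a, h1, h2⟩ h⟩
    obtain ⟨o1, h1, h1'⟩ := hex 1
    obtain ⟨o2, h2, h2'⟩ := hex 2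
    obtain ⟨o3, h3, h3'⟩ := hex 3
    obtain ⟨p, hp, hp1, hp2, hp3⟩ := L_ext o1 (fun a ha => (h1 a ha).1) o2
      (fun a ha => (h2 a ha).1) (fun a ha b hb => hs _ (h1 a ha).2 _ (h2 b hb).2) o3
      (fun a ha => (h3 a ha).1) (fun a ha b hb => hs _ (h1 a ha).2 _ (h3 b hb).2)
      (fun a ha b hb => hs _ (h2 a ha).2 _ (h3 b hb).2)
    refine ⟨p.1.map vt.toEmbedding, ?_, ?_⟩
    · rw [LV, List.map_map, List.mem_map]
      exact ⟨p, hp, rfl⟩
    · intro v hv
      obtain ⟨i, rfl⟩ := vt.surjective v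
      rw [Finset.mem_map]
      refine ⟨i, ?_, rfl⟩
      rcases vf_card i with h | h | h
      · exact hp1 i (h1' i h hv)
      · exact hp2 i (h2' i h hv)
      · exact hp3 i (h3' i h hv)
  · rintro ⟨F, hF, hsF⟩ a ha b hb
    rw [LV, List.map_map, List.mem_map] at hF
    obtain ⟨p, hp, rfl⟩ := hF
    obtain ⟨i, hi, rfl⟩ := Finset.mem_map.mp (hsF ha)
    obtain ⟨j, hj, rfl⟩ := Finset.mem_map.mp (hsF hb)
    exact (L_card p hp).2 i hi j hj

theorem srIdeal_eq : srIdeal K (sd Gam) = J K (LV.map Prod.fst) := by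
  ext f
  rw [mem_srIdeal, mem_J]
  refine forall₂_congr (fun m _ => ?_)
  have h := chain_iff m.support
  constructor
  · rintro ⟨h1, h2⟩ F hF hs
    exact h2 ⟨h1, h.mpr ⟨F, hF, hs⟩⟩
  · intro h1
    have hne : m.support.Nonempty := by
      by_contra hcon
      rw [Finset.not_nonempty_iff_eq_empty] at hcon
      obtain ⟨F, hF, hs⟩ := h.mp (by rw [hcon]; simp)
      exact h1 F hF hs
    refine ⟨hne, fun h2 => ?_⟩
    obtain ⟨F, hF, hs⟩ := h.mp h2.2
    exact h1 F hF hs

theorem LV_props : ∀ p ∈ LV, p.1.card = 3 ∧ p.1 ∈ (sd Gam).faces := by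
  intro p hp
  obtain ⟨q, hq, rfl⟩ := List.mem_map.mp hp
  have hc := (L_card q hq).1
  refine ⟨by rw [Finset.card_map]; exact hc, ?_, ?_⟩
  · rw [← Finset.card_pos, Finset.card_map]; omega
  · rw [chain_iff]
    exact ⟨_, List.mem_map_of_mem hp, Finset.Subset.refl _⟩

theorem dim_sd : HasDimSucc (sd Gam) 3 := by
  constructor
  · intro s hs
    obtain ⟨F, hF, hsF⟩ := (chain_iff s).mp hs.2
    obtain ⟨p, hp, rfl⟩ := List.mem_map.mp hF
    exact (Finset.card_le_card hsF).trans (LV_props p hp).1.le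
  · have f1 := face3 (a := 0) (b := 10) (c := 21) (by decide)
    exact ⟨_, f1.1, f1.2⟩

theorem cm_sd : IsCohenMacaulay K (sd Gam) 3 := by
  refine ⟨dim_sd, ⟨_, exists_lsop (Γ := Gam) (d := 3) ?_ K⟩, ?_⟩
  · intro s hs
    obtain ⟨i, rfl⟩ := vf_surj s hs
    rcases vf_card i with h | h | h <;> omega
  · intro Θ hΘ
    have hw : IsWeaklyRegular (MvPolynomial Gam.faces K ⧸ srIdeal K (sd Gam)) (List.ofFn Θ) := by
      rw [srIdeal_eq]
      refine shelling_regular Θ hΘ.linear LV (isShelling_map _ _ L_shelling) (fun p hp => ?_)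
      refine ⟨(LV_props p hp).1, fun q hq hq2 => ?_⟩
      exact lsop_independent hΘ (LV_props p hp).2 q hq hq2
    refine ⟨hw, ?_⟩
    intro htop
    have h1 : (Ideal.Quotient.mk (srIdeal K (sd Gam)) 1) ∈
        (Ideal.ofList (List.ofFn Θ) • ⊤ : Submodule (MvPolynomial Gam.faces K)
          (MvPolynomial Gam.faces K ⧸ srIdeal K (sd Gam))) := by
      rw [← htop]; trivial
    -- evaluation at zero
    have hev : ∀ x ∈ (Ideal.ofList (List.ofFn Θ) • ⊤ : Submodule (MvPolynomial Gam.faces K)
          (MvPolynomial Gam.faces K ⧸ srIdeal K (sd Gam))),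
        ∀ f : MvPolynomial Gam.faces K, Ideal.Quotient.mk _ f = x → constantCoeff f = 0 := by
      have hle : srIdeal K (sd Gam) ⊔ Ideal.ofList (List.ofFn Θ) ≤
          RingHom.ker (constantCoeff (σ := Gam.faces) (R := K)) := by
        refine sup_le ?_ ?_
        · intro f hf
          rw [RingHom.mem_ker, constantCoeff_eq]
          by_contra hne
          have := (mem_srIdeal.mp hf _ (mem_support_iff.mpr hne)).1
          simp at this
        · rw [Ideal.ofList, Ideal.span_le]
          intro r hr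
          obtain ⟨i, rfl⟩ := (List.mem_ofFn).mp hr
          rw [SetLike.mem_coe, RingHom.mem_ker, constantCoeff_eq]
          by_contra hne
          have := hΘ.linear i hne
          simp at this
      intro x hx
      induction hx using Submodule.smul_induction_on' with
      | smul r hr n _ =>
        intro f hf
        obtain ⟨g, rfl⟩ := Ideal.Quotient.mk_surjective n
        have : f - r * g ∈ srIdeal K (sd Gam) := by
          rw [← Ideal.Quotient.eq, hf]; rfl
        have h2 : f = (f - r * g) + r * g := by ring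
        have h3 : f ∈ srIdeal K (sd Gam) ⊔ Ideal.ofList (List.ofFn Θ) := by
          rw [h2]
          exact Submodule.add_mem _ (Ideal.mem_sup_left this)
            (Ideal.mem_sup_right (Ideal.mul_mem_right _ _ hr))
        exact hle h3
      | add y _ z _ hy hz =>
        intro f hf
        obtain ⟨g, hg⟩ := Ideal.Quotient.mk_surjective y
        have h4 := hy g hg
        have h5 := hz (f - g) (by rw [map_sub, hf, hg]; simp)
        rw [map_sub, h4, sub_zero] at h5
        exact h5
    have := hev _ h1 1 rfl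
    simp at this

end CM

/-- There is a finite simplicial complex `Γ` such that, over every field `K`, the Stanley-Reisner
ring of its barycentric subdivision is Cohen-Macaulay (of dimension 3), and for every linear
system of parameters `Θ` of that ring the Artinian quotient fails the weak Lefschetz property. -/
theorem result : ∃ (n : ℕ) (Γ : AbstractSimplicialComplex (Fin n)),
    ∀ (K : Type u) [Field K],
      IsCohenMacaulay K (sd Γ) 3 ∧
      ∀ Θ : Fin 3 → MvPolynomial Γ.faces K, IsLSOP K (sd Γ) Θ →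
        ¬ HasWLP (srIdeal K (sd Γ) ⊔ Ideal.span (Set.range Θ)) :=
  ⟨6, Gam, fun _ _ => ⟨cm_sd, fun _ hΘ => not_wlp hΘ⟩⟩

end Pool.Agent.Results.MP_28b0d6_al.SubdivisionFailsWLP
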